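import Pool.Agent.Lib.DN.CV.C8
import Pool.Agent.Lib.DS.IfaceC

/-!
# Theorems DR, DM: the Galois action on the values of the theta series, all imaginary quadratic fields, general modulus
(author helper97)
-/

set_option autoImplicit false

open scoped Pointwise nonZeroDivisors

noncomputable section

namespace Pool.Agent.DS

open Pool.Agent.MuZ Pool.Agent.FW NumberField IsDedekindDomain Pool.Agent.DN
open Pool.Agent.DI (io ofC io_inj exists_io io_ofC ofC_io VP MP UP TP ex sqr sqr_sq kap)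

variable {n t : ℕ}

/-! ## `FMg`, `FBg` -/

theorem fmg [SqN n t] {F : ℕ} {m : Ideal (OO n t)} (h : FMg F m) :
    15 ≤ F ∧ PrI m 15 ∧ PrI m 2 ∧ Odd (NI m) ∧ (NI m).Coprime F ∧ 0 < NI m := by
  have h1 : 15 ≤ F := Nat.le_of_dvd h.pos h.dvd
  exact ⟨h1, CV_pri_dvd h.cop h.dvd, CV_pri_dvd h.cop h.two, CV_NI_odd (CV_pri_dvd h.cop h.two),
    (CV_NI_cop h.pos).1 h.cop, CV_NI_ne h.ne⟩

theorem fbg [SqN n t] {F : ℕ} {m b : Ideal (OO n t)} (h : FMg F m) (hb : FBg F b) :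
    G15 b ∧ PrI b 2 ∧ PrI (m * b) F :=
  ⟨⟨hb.ne, CV_pri_dvd hb.cop h.dvd⟩, CV_pri_dvd hb.cop h.two, CV_pri_mul h.cop hb.cop⟩

theorem fbg_mul [SqN n t] {F : ℕ} {a b : Ideal (OO n t)} (ha : FBg F a) (hb : FBg F b) :
    FBg F (a * b) := ⟨mul_ne_zero ha.ne hb.ne, CV_pri_mul ha.cop hb.cop⟩

theorem fbg_top (F : ℕ) : FBg (n := n) (t := t) F ⊤ := ⟨(CV_fb_top F).ne, CV_top _⟩

theorem fbg_sp [SqN n t] {F : ℕ} (hF : 2 ≤ F) {v : OO n t} (h : Cop v F) : FBg F (sp v) :=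
  ⟨CV_sp_ne (CV_ne_of_cop hF h), CV_pri_sp (by omega) h⟩

/-! ## The Galois action -/

/-- The action on the formula. -/
theorem C8_aux [SqN n t] (hC4 : S_C4) (hE6 : S_E6) (hE10 : S_E10) {F : ℕ} {m b a : Ideal (OO n t)}
    (hm : FMg F m) (hb : FBg F b) (c : ℤ) {q : ℕ} (hq : 0 < q) (hqm : q.Coprime (NI m)) (hbq : PrI b q)
    {τ : Gal(Om/ℚ)} (hτ : τ ∈ GK n t) (hpsi : Psi τ (NI m * (F * q)) a) (haF : FBg F a)
    (haq : PrI a q) :
    τ (etaM F m b (c / q)) = etaM F m (a * b) (c / q) := by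
  obtain ⟨hF15, hm15, hm2, hmo, hmc, hm0⟩ := fmg hm
  obtain ⟨hbG, hb2, hmb⟩ := fbg hm hb
  have hF0 := hm.pos
  have hN : 0 < NI m * (F * q) := by positivity
  have h15 : 15 ∣ NI m * (F * q) := dvd_trans hm.dvd ⟨NI m * q, by ring⟩
  obtain ⟨-, -, h8⟩ := hC4 n t F m b hm hb c q hq hqm
  obtain ⟨-, -, h9⟩ := hC4 n t F m (a * b) hm (fbg_mul haF hb) c q hq hqm
  rw [h8 hbq, h9 (CV_pri_mul haq hbq), map_mul, map_div₀, map_one, map_natCast, map_sum]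
  congr 1
  refine Finset.sum_congr rfl fun x _ => ?_
  rw [map_sum]
  refine Finset.sum_congr rfl fun y _ => ?_
  have hv : ((F : ℕ) : OO n t) ∣ (⟨1 + F * x, F * y⟩ : OO n t) - 1 := by
    rw [nat_dvd_iff, QuadraticAlgebra.re_sub, QuadraticAlgebra.im_sub, re_one, im_one]
    refine ⟨⟨x, ?_⟩, ⟨y, ?_⟩⟩
    · push_cast
      ring
    · push_cast
      ring
  rw [map_mul, map_zpow₀, hE6 n t τ _ a hτ hN h15 hpsi (zet q) (by
    have e : NI m * (F * q) = q * (NI m * F) := by ring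
    rw [e, pow_mul, CV_zet_pow hq, one_pow]), CV_NI_mul]
  congr 1
  · rw [← zpow_natCast, ← zpow_mul]
    congr 1
    push_cast
    ring
  · refine ((hE10 n t τ _ a hN h15 hpsi).2 m b hm.ne hbG hm2 hm15 (Dvd.intro _ rfl) _
      (CV_pt_tor (by positivity) b _ (NI m))).1 ?_
    exact CV_pt (by omega) hq (mul_ne_zero hm.ne hb.ne) hmb hv

/-- **`S_C8`.** -/
theorem sC8 (hC4 : S_C4) (hC6 : S_C6) (hE1 : S_E1) (hE6 : S_E6) (hE10 : S_E10) : S_C8 := by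
  intro n t _ F m b hm hb r hr τ hτ a hτa
  obtain ⟨hF15, hm15, hm2, hmo, hmc, hm0⟩ := fmg hm
  have hF0 := hm.pos
  set q : ℕ := r.den with hq
  have hq0 : 0 < q := r.den_pos
  have hrr : ((r.num : ℤ) : ℚ) / q = r := Rat.num_div_den r
  -- an ideal prime to `q`
  obtain ⟨b', hb'0, hb'P, -, hbb'⟩ := aO8 n t F q hF0 hq0 (fun _ => True) trivial
    (fun _ _ _ _ => trivial) (fun _ _ _ _ => trivial) b hb.ne hb.cop
  have hb' : FBg F b' := ⟨hb'0, CV_pri_dvd hb'P (Dvd.intro _ rfl)⟩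
  have hb'q : PrI b' q := CV_pri_dvd hb'P (Dvd.intro_left _ rfl)
  have hN : 0 < NI m * (F * q) := by positivity
  have h15 : 15 ∣ NI m * (F * q) := dvd_trans hm.dvd ⟨NI m * q, by ring⟩
  obtain ⟨a', ha'⟩ := (hE1 n t _ hN h15).1 τ hτ
  have hFN : F ∣ NI m * (F * q) := ⟨NI m * q, by ring⟩
  have ha'f : Psi τ F a' := (hE1 n t _ hN h15).2.2.2.2 τ F a' ha' hFN hm.dvd
  have hray : Ray F a a' := (hE1 n t F hF0 hm.dvd).2.1 τ a a' hτa ha'f
  have haF : FBg F a := ⟨hτa.ne, CV_pri_dvd hτa.cop (Dvd.intro_left _ rfl)⟩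
  have ha'F : FBg F a' := ⟨ha'.ne, CV_pri_dvd ha'f.cop (Dvd.intro_left _ rfl)⟩
  have ha'q : PrI a' q := CV_pri_dvd ha'.cop ⟨15 * (NI m * F), by ring⟩
  have h7 := aO7 n t F hF0
  have hray' : Ray F (a * b) (a' * b') := h7.2.2.2.1 a a' b b' hray hbb'
  rw [((hC6 n t F m b hm hb).1 b' hb' hbb').2 r,
    ((hC6 n t F m (a * b) hm (fbg_mul haF hb)).1 (a' * b') (fbg_mul ha'F hb') hray').2 r, ← hrr]
  exact C8_aux hC4 hE6 hE10 hm hb' r.num hq0 hr hb'q hτ ha' ha'F ha'q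

end Pool.Agent.DS
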